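import Pool.Agent.Results.MP_6b8fc7_nt.EveryModulus
import Pool.Agent.U513.AP.Log

/-!
# Odd integers as a prime plus twice a square, near the numerators and denominators of Diophantine approximations

The starting file bounds the number of the odd `n ≤ N` which are not of the form `p + 2 m ^ 2`. Here: for all points `α` outside of a
set of Hausdorff measure zero in the dimension `(d + 1) / (1 + τ)`, ALL odd natural numbers near integral affine forms at ALL
approximations of `α` with a large denominator are of this form.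
-/

set_option autoImplicit false

open Finset Filter MeasureTheory

namespace Pool.Agent.Results.MP_6b8fc7_nt.Approximations

open Pool.Agent.U513.AP

/-- For all `d`, `τ ≥ 0` and `γ` there is a set `E` of Hausdorff measure zero in the dimension `(d + 1) / (1 + τ)` (of Lebesgue measure
zero if `d τ ≥ 1`) such that for all `α ∉ E`, all `W` and all the integral affine forms `c + a k + ∑ b_i u_i` with `(a, b) ≠ 0`, for all
large `k` and all integral `u` with `|k α_i - γ_i - u_i| ≤ k ^ (-τ)`: ALL odd `n ≥ 1` with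
`|n - (c + a k + ∑ b_i u_i)| ≤ (log k) ^ W` are `p + 2 m ^ 2` with a prime `p` and `m ≥ 1`. -/
theorem result (d : ℕ) (τ : ℝ) (hτ : 0 ≤ τ) (γ : Fin d → ℝ) :
    ∃ E : Set (Fin d → ℝ), μH[((d : ℝ) + 1) / (1 + τ)] E = 0 ∧ (1 ≤ d * τ → volume E = 0) ∧
      ∀ α, α ∉ E → ∀ (W : ℕ) (c a : ℤ) (b : Fin d → ℤ), ¬ (a = 0 ∧ b = 0) → ∀ᶠ k : ℕ in atTop, ∀ u : Fin d → ℤ,
        (∀ i, |(k : ℝ) * α i - γ i - u i| ≤ (k : ℝ) ^ (-τ)) → ∀ n : ℕ, 1 ≤ n → Odd n →
          |(n : ℝ) - (c + a * k + ∑ i, b i * u i : ℤ)| ≤ Real.log k ^ W →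
            ∃ p m : ℕ, p.Prime ∧ 1 ≤ m ∧ n = p + 2 * m ^ 2 := by
  classical
  obtain ⟨B, hB⟩ : ∃ B : Set ℕ, B = {n : ℕ | Odd n ∧ ¬ ∃ p m : ℕ, p.Prime ∧ 1 ≤ m ∧ n = p + 2 * m ^ 2} := ⟨_, rfl⟩
  have hF : ∀ A : ℕ, FewLog B A := by
    intro A
    obtain ⟨B₀, h⟩ := EveryModulus.result (1 / 4) (by norm_num) A 0 0
    obtain ⟨N₀, h0⟩ := h (B₀ + 1)
    have hlog : Tendsto (fun X : ℕ => Real.log X) atTop atTop := Real.tendsto_log_atTop.comp tendsto_natCast_atTop_atTop
    obtain ⟨X₀, hX₀⟩ := eventually_atTop.1 (hlog.eventually_ge_atTop 2)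
    refine fewLog_of ⟨max (max N₀ X₀) 1, fun X hX => ?_⟩
    have hXN : N₀ ≤ X := le_trans (le_trans (le_max_left _ _) (le_max_left _ _)) hX
    have hXX : X₀ ≤ X := le_trans (le_trans (le_max_right _ _) (le_max_left _ _)) hX
    have hX1 : 1 ≤ X := le_trans (le_max_right _ _) hX
    have hl2 : (2 : ℝ) ≤ Real.log X := hX₀ X hXX
    have hX1' : (1 : ℝ) ≤ X := by exact_mod_cast hX1
    obtain ⟨z, hz⟩ : ∃ z : ℕ, z = ⌈Real.log X ^ B₀⌉₊ := ⟨_, rfl⟩
    have hp0 : (1 : ℝ) ≤ Real.log X ^ B₀ := one_le_pow₀ (by linarith)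
    have hz1 : Real.log X ^ B₀ ≤ z := by rw [hz]; exact Nat.le_ceil _
    have hz2 : (z : ℝ) ≤ Real.log X ^ (B₀ + 1) := by
      have h1 : (z : ℝ) < Real.log X ^ B₀ + 1 := by rw [hz]; exact Nat.ceil_lt_add_one (by linarith)
      rw [pow_succ]
      nlinarith
    have h2 := h0 X hXN z hz1 hz2 1 le_rfl (by
      rw [Nat.cast_one]
      exact Real.one_le_rpow hX1' (by norm_num)) (by simp) 0 (by simp)
    rw [Nat.cast_one, one_mul] at h2
    refine le_trans (Nat.cast_le.2 ?_) h2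
    unfold EveryModulus.exceptions
    rw [← Set.ncard_coe_finset]
    refine Set.ncard_le_ncard ?_ (Finset.finite_toSet _)
    rintro n ⟨hn, h3, h4⟩
    rw [hB] at hn
    rw [mem_coe, mem_filter, mem_Icc]
    exact ⟨⟨h3, h4⟩, hn.1, Nat.modEq_one, fun hg => hn.2 hg.1⟩
  obtain ⟨E, e1, e2, e3⟩ := null_forms_all hF hτ γ
  refine ⟨E, e1, e2, fun α hα W c a b hab => ?_⟩
  filter_upwards [e3 α hα W c a b hab] with k hk u hu n hn hodd hle
  by_contra hcon
  exact hk u hu n (by rw [hB]; exact ⟨hodd, hcon⟩) hn hle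

end Pool.Agent.Results.MP_6b8fc7_nt.Approximations
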