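import Mathlib
import Pool.Agent.U914.WP.KR

/-!
# Two primes (or elements of two arbitrary sets) plus a value of almost every polynomial

Let `k ≥ 2`, let `a > 0` be fixed and let `f(x) = a x ^ k + θ_{k-1} x ^ (k-1) + … + θ_1 x` with real coefficients `θ_j`;
for `k = 2` and `a = 2` this is `f(x) = 2 x ^ 2 + θ x`. We prove that for almost all `θ` and for every large `n` the
number of representations `n = b + b' + ⌊f(x)⌋` with `b` and `b'` in arbitrary sets `S, S' ⊆ [0, n/4]` equals its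
expected value up to a power saving, uniformly in the sets. In particular every large integer `n` is the sum of two
primes and a value `⌊f(x)⌋` with a positive integer `x`.
-/

set_option autoImplicit false

namespace Pool.Agent.Results.MP_6b8fc7_nt.TwoSetsPlusValue

open MeasureTheory Filter

/-- **Elements of two arbitrary sets, or two primes, plus a value of almost every polynomial.** Let `k ≥ 2` and `a > 0`.
There is `τ > 0` such that for almost all `θ ∈ ℝ ^ (k-1)` (Lebesgue measure) the polynomial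
`f(x) = a x ^ k + θ_{k-1} x ^ (k-1) + … + θ_1 x` has these three properties for every large integer `n`.

* For all finite sets `S, S' ⊆ [0, n/4]` the number of triples `(b, b', x)` with `b ∈ S`, `b' ∈ S'`, `x` a positive
  integer and `b + b' + ⌊f(x)⌋ = n` differs from `∑_{b ∈ S} ∑_{b' ∈ S'} (1/k) a ^ (-1/k) (n - b - b') ^ (1/k - 1)` by at
  most `(|S| |S'|) ^ (1/2) n ^ (1/k - 4τ)`.
* If moreover `S` and `S'` have at least `n ^ (1 - τ)` elements each then `n = b + b' + ⌊f(x)⌋` for some `b ∈ S`,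
  `b' ∈ S'` and a positive integer `x`.
* There are primes `p, q` and a positive integer `x` with `n = p + q + ⌊f(x)⌋`. -/
theorem result (k : ℕ) (hk : 2 ≤ k) (a : ℝ) (ha : 0 < a) :
    ∃ τ : ℝ, 0 < τ ∧ ∀ᵐ θ : Fin (k - 1) → ℝ, ∀ᶠ n : ℕ in atTop,
      (∀ S S' : Finset ℕ, (∀ b ∈ S, 4 * b ≤ n) → (∀ b ∈ S', 4 * b ≤ n) →
        |(({q : (ℕ × ℕ) × ℕ | (q.1.1 ∈ S ∧ q.1.2 ∈ S') ∧ 0 < q.2 ∧ (q.1.1 : ℤ) + (q.1.2 : ℤ) +
            ⌊a * (q.2 : ℝ) ^ k + ∑ j : Fin (k - 1), θ j * (q.2 : ℝ) ^ ((j : ℕ) + 1)⌋ = (n : ℤ)}.ncard : ℕ) : ℝ) -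
            ∑ b ∈ S, ∑ b' ∈ S', a ^ (-(1 / (k : ℝ))) / k * ((n : ℝ) - b - b') ^ (1 / (k : ℝ) - 1)| ≤
          Real.sqrt ((S.card : ℝ) * S'.card) * (n : ℝ) ^ (1 / (k : ℝ) - 4 * τ)) ∧
      (∀ S S' : Finset ℕ, (∀ b ∈ S, 4 * b ≤ n) → (∀ b ∈ S', 4 * b ≤ n) →
        (n : ℝ) ^ (1 - τ) ≤ S.card → (n : ℝ) ^ (1 - τ) ≤ S'.card →
        ∃ b ∈ S, ∃ b' ∈ S', ∃ x : ℕ, 0 < x ∧ (b : ℤ) + (b' : ℤ) +
          ⌊a * (x : ℝ) ^ k + ∑ j : Fin (k - 1), θ j * (x : ℝ) ^ ((j : ℕ) + 1)⌋ = (n : ℤ)) ∧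
      (∃ p q x : ℕ, p.Prime ∧ q.Prime ∧ 0 < x ∧ (p : ℤ) + (q : ℤ) +
          ⌊a * (x : ℝ) ^ k + ∑ j : Fin (k - 1), θ j * (x : ℝ) ^ ((j : ℕ) + 1)⌋ = (n : ℤ)) := by
  obtain ⟨d, rfl⟩ : ∃ d, k = d + 1 := ⟨k - 1, by omega⟩
  obtain ⟨δ, hδ0, hδ1, hdom⟩ := Pool.Agent.U914.WP.dom_ae d (by omega) a ha
  refine ⟨δ / (8 * ((d + 1 : ℕ) : ℝ)), by positivity, ?_⟩
  filter_upwards [hdom] with θ hdom
  have hk0 : (0 : ℝ) < ((d + 1 : ℕ) : ℝ) := by positivity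
  have hτ : 0 < δ / (8 * ((d + 1 : ℕ) : ℝ)) := by positivity
  filter_upwards [Pool.Agent.U914.WP.pair_pt d (by omega) a ha δ hδ0 hδ1 θ hdom,
    Pool.Agent.U914.WP.pair_rep d (by omega) a ha δ hδ0 hδ1 θ hdom,
    Pool.Agent.U914.WP.primes_quarter _ hτ, eventually_ge_atTop 1] with N h1 h2 h3 hN1
  have hN0 : (0 : ℝ) < N := by exact_mod_cast hN1
  have hrep : ∀ S S' : Finset ℕ, (∀ b ∈ S, 4 * b ≤ N) → (∀ b ∈ S', 4 * b ≤ N) →
      (N : ℝ) ^ (1 - δ / (8 * ((d + 1 : ℕ) : ℝ))) ≤ S.card → (N : ℝ) ^ (1 - δ / (8 * ((d + 1 : ℕ) : ℝ))) ≤ S'.card →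
      ∃ b ∈ S, ∃ b' ∈ S', ∃ x : ℕ, 0 < x ∧ (b : ℤ) + (b' : ℤ) +
        ⌊a * (x : ℝ) ^ (d + 1) + ∑ j : Fin (d + 1 - 1), θ j * (x : ℝ) ^ ((j : ℕ) + 1)⌋ = (N : ℤ) := by
    intro S S' hS hS' hc hc'
    have h4 := h2 S S' hS hS' hc hc'
    unfold Pool.Agent.U914.WP.cQ at h4
    obtain ⟨⟨⟨b, b'⟩, x⟩, h5⟩ := Set.nonempty_of_ncard_ne_zero h4.ne'
    exact ⟨b, h5.1.1, b', h5.1.2, x, h5.2.1, h5.2.2⟩
  refine ⟨?_, hrep, ?_⟩
  · intro S S' hS hS'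
    have h4 := h1 S S' hS hS'
    have e2 : δ / (2 * ((d + 1 : ℕ) : ℝ)) = 4 * (δ / (8 * ((d + 1 : ℕ) : ℝ))) := by
      field_simp
      ring
    rw [e2, Finset.sum_product] at h4
    refine le_trans (le_of_eq ?_) h4
    congr 1
    congr 1
    apply Finset.sum_congr rfl
    intro b hb
    apply Finset.sum_congr rfl
    intro b' hb'
    have h6 : (4 : ℝ) * b ≤ N := by exact_mod_cast hS b hb
    have h7 : (4 : ℝ) * b' ≤ N := by exact_mod_cast hS' b' hb'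
    have h8 : (0 : ℝ) < (N : ℝ) - (b + b') := by linarith
    have h9 : (N : ℝ) - b - b' = (N : ℝ) - (b + b') := by ring
    rw [h9]
    unfold Pool.Agent.U914.WP.rh Pool.Agent.U914.WP.ps1
    rw [Real.div_rpow h8.le ha.le, Real.rpow_sub h8, Real.rpow_one, Real.rpow_neg ha.le, one_div]
    field_simp
  · have h5 : ∀ b ∈ (Finset.range (N / 4 + 1)).filter Nat.Prime, 4 * b ≤ N := by
      intro b hb
      have := Finset.mem_range.1 (Finset.mem_filter.1 hb).1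
      omega
    obtain ⟨p, hp, q, hq, x, hx, h6⟩ := hrep _ _ h5 h5 h3 h3
    exact ⟨p, q, x, (Finset.mem_filter.1 hp).2, (Finset.mem_filter.1 hq).2, hx, h6⟩

end Pool.Agent.Results.MP_6b8fc7_nt.TwoSetsPlusValue
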